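import Pool.Agent.Nil.NilSeq

set_option autoImplicit false

/-!
# CoI: the linear form of polynomial sequences on `X^ℤ` (co-induction), group theory

`sh` is the shift of `ℤ → X`, a sequence `p : ℤ → Perm X` acts on `ℤ → X` by
`(x_i) ↦ (p_i x_i)` (`co p`).  For `g : Fin m → ℤ → Perm X` the maps
`T_j = (co g_j)⁻¹ * sh * co g_j` and `T_m = sh` satisfy
`(T_j ^ n * T_m ^ (-n)) x = (g_j(i)⁻¹ g_j(i+n) x_i)_i`.
If the `g_j` are products of powers `T_i ^ P_ij(n)` in a nilpotent group, the group generated by the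
`T_j` and `T_m` is nilpotent.
-/

namespace Pool.CoI

open Pool.Nil

variable {X : Type*}

/-- the shift of `ℤ → X` -/
def sh (X : Type*) : Equiv.Perm (ℤ → X) where
  toFun x := fun i => x (i + 1)
  invFun x := fun i => x (i - 1)
  left_inv x := by funext i; simp
  right_inv x := by funext i; simp

/-- coordinatewise action of a sequence of permutations -/
def co : (ℤ → Equiv.Perm X) →* Equiv.Perm (ℤ → X) where
  toFun p :=
    { toFun := fun x i => p i (x i)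
      invFun := fun x i => (p i)⁻¹ (x i)
      left_inv := fun x => by funext i; simp
      right_inv := fun x => by funext i; simp }
  map_one' := by ext x i; simp
  map_mul' p q := by ext x i; simp [Equiv.Perm.mul_apply]

theorem co_apply (p : ℤ → Equiv.Perm X) (x : ℤ → X) (i : ℤ) : co p x i = p i (x i) := rfl

theorem sh_apply (x : ℤ → X) (i : ℤ) : sh X x i = x (i + 1) := rfl

theorem sh_inv_apply (x : ℤ → X) (i : ℤ) : (sh X)⁻¹ x i = x (i - 1) := rfl

theorem sh_zpow (n : ℤ) (x : ℤ → X) (i : ℤ) : ((sh X) ^ n) x i = x (i + n) := by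
  have hnat : ∀ (k : ℕ) (x : ℤ → X) (i : ℤ), ((sh X) ^ k) x i = x (i + k) := by
    intro k
    induction k with
    | zero => intro x i; simp
    | succ k ih =>
      intro x i
      rw [pow_succ, Equiv.Perm.mul_apply, ih, sh_apply]
      congr 1
      push_cast
      ring
  have hneg : ∀ (k : ℕ) (x : ℤ → X) (i : ℤ), ((sh X)⁻¹ ^ k) x i = x (i - k) := by
    intro k
    induction k with
    | zero => intro x i; simp
    | succ k ih =>
      intro x i
      rw [pow_succ, Equiv.Perm.mul_apply, ih, sh_inv_apply]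
      congr 1
      push_cast
      ring
  rcases Int.eq_nat_or_neg n with ⟨k, rfl | rfl⟩
  · rw [zpow_natCast]; exact hnat k x i
  · rw [zpow_neg, zpow_natCast, ← inv_pow, hneg]
    congr 1

/-- conjugation of `co p` by powers of the shift -/
theorem sh_co (n : ℤ) (p : ℤ → Equiv.Perm X) :
    (sh X) ^ n * co p * ((sh X) ^ n)⁻¹ = co fun i => p (i + n) := by
  rw [mul_inv_eq_iff_eq_mul]
  ext x i
  rw [Equiv.Perm.mul_apply, Equiv.Perm.mul_apply, sh_zpow, co_apply, co_apply, sh_zpow]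

/-- the maps `T_0, …, T_(m-1), T_m` -/
def hat {m : ℕ} (g : Fin m → ℤ → Equiv.Perm X) (i : Fin (m + 1)) : Equiv.Perm (ℤ → X) :=
  Fin.lastCases (motive := fun _ => Equiv.Perm (ℤ → X)) (sh X)
    (fun j => (co (g j))⁻¹ * sh X * co (g j)) i

theorem hat_last {m : ℕ} (g : Fin m → ℤ → Equiv.Perm X) : hat g (Fin.last m) = sh X := by
  simp [hat]

theorem hat_castSucc {m : ℕ} (g : Fin m → ℤ → Equiv.Perm X) (j : Fin m) :
    hat g j.castSucc = (co (g j))⁻¹ * sh X * co (g j) := by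
  simp [hat]

theorem hat_mul {m : ℕ} (g : Fin m → ℤ → Equiv.Perm X) (j : Fin m) (n : ℤ) :
    hat g j.castSucc ^ n * (hat g (Fin.last m)) ^ (-n) =
      co fun i => (g j i)⁻¹ * g j (i + n) := by
  have h1 : ∀ a b : Equiv.Perm (ℤ → X), (a⁻¹ * b * a) ^ n = a⁻¹ * b ^ n * a := by
    intro a b
    have := conj_zpow (i := n) (a := a⁻¹) (b := b)
    rwa [inv_inv] at this
  rw [hat_castSucc, hat_last, h1, zpow_neg, mul_assoc, mul_assoc, ← mul_assoc ((sh X) ^ n),
    sh_co n (g j), ← map_inv, ← map_mul]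
  rfl

/-- at the coordinate `0` one reads `g_j(n) x_0` -/
theorem hat_zero {m : ℕ} (g : Fin m → ℤ → Equiv.Perm X) (j : Fin m) (h0 : g j 0 = 1) (n : ℤ)
    (x : ℤ → X) :
    (hat g j.castSucc ^ n * (hat g (Fin.last m)) ^ (-n)) x 0 = g j n (x 0) := by
  rw [hat_mul, co_apply, h0]
  simp

section nil

variable {G : Subgroup (Equiv.Perm X)} {F : ℕ → Subgroup G}

/-- sequences of `G` acting coordinatewise -/
def Phi (G : Subgroup (Equiv.Perm X)) : (ℤ → G) →* Equiv.Perm (ℤ → X) :=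
  (co (X := X)).comp
    { toFun := fun f n => (f n : Equiv.Perm X)
      map_one' := rfl
      map_mul' := fun _ _ => rfl }

theorem Phi_apply (f : ℤ → G) : Phi G f = co fun n => (f n : Equiv.Perm X) := rfl

theorem sh_Phi (n : ℤ) (f : ℤ → G) :
    (sh X) ^ n * Phi G f * ((sh X) ^ n)⁻¹ = Phi G fun i => f (i + n) := by
  rw [Phi_apply, sh_co, Phi_apply]

/-- polynomial sequences of level `i` -/
def SS (hF : Filt F) (i : ℕ) : Subgroup (ℤ → G) where
  carrier := {f | IsSeq F i f}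
  mul_mem' := fun ha hb => IsSeq.mul hF ha hb
  one_mem' := IsSeq.const (one_mem _)
  inv_mem' := fun ha => IsSeq.inv hF ha

theorem mem_SS (hF : Filt F) {i : ℕ} {f : ℤ → G} : f ∈ SS hF i ↔ IsSeq F i f := Iff.rfl

/-- polynomial sequences of level `i`, acting on `ℤ → X` -/
def NN (hF : Filt F) (i : ℕ) : Subgroup (Equiv.Perm (ℤ → X)) := (SS hF i).map (Phi G)

theorem NN_le (hF : Filt F) {i j : ℕ} (h : i ≤ j) : NN hF j ≤ NN hF i :=
  Subgroup.map_mono fun _ hf => IsSeq.le hF h hf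

theorem NN_comm (hF : Filt F) {i j : ℕ} {a b : Equiv.Perm (ℤ → X)} (ha : a ∈ NN hF i)
    (hb : b ∈ NN hF j) : a * b * a⁻¹ * b⁻¹ ∈ NN hF (i + j) := by
  obtain ⟨f, hf, rfl⟩ := ha
  obtain ⟨g, hg, rfl⟩ := hb
  refine ⟨f * g * f⁻¹ * g⁻¹, IsSeq.comm hF hf hg, by simp⟩

theorem NN_conj (hF : Filt F) {i j : ℕ} {a b : Equiv.Perm (ℤ → X)} (ha : a ∈ NN hF i)
    (hb : b ∈ NN hF j) : a * b * a⁻¹ ∈ NN hF j := by
  obtain ⟨f, hf, rfl⟩ := ha
  obtain ⟨g, hg, rfl⟩ := hb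
  exact ⟨f * g * f⁻¹, IsSeq.conj hF hf hg, by simp⟩

theorem SQ_comp_add (k : ℕ) : ∀ {i : ℕ} {f : ℤ → G}, f ∈ SQ F k i → ∀ c : ℤ,
    (fun n => f (n + c)) ∈ SQ F k i := by
  induction k with
  | zero => intro i f hf c n; exact hf _
  | succ k ih =>
    intro i f hf c
    refine ⟨fun n => hf.1 _, ?_⟩
    have e : dz (fun n => f (n + c)) = fun n => dz f (n + c) := by
      funext n
      simp only [dz]
      rw [add_right_comm]
    rw [e]
    exact ih hf.2 c

theorem seq_comp_add {i : ℕ} {f : ℤ → G} (hf : IsSeq F i f) (c : ℤ) :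
    IsSeq F i fun n => f (n + c) := fun k => SQ_comp_add k (hf k) c

/-- shifted quotients raise the level -/
theorem seq_shift (hF : Filt F) {i : ℕ} {f : ℤ → G} (hf : IsSeq F i f) (k : ℤ) :
    IsSeq F (i + 1) (fun n => f (n + k) * (f n)⁻¹) := by
  have hs : ∀ (f : ℤ → G) (j : ℕ), IsSeq F j f → ∀ k : ℤ, IsSeq F j fun n => f (n + k) :=
    fun f j hf k => seq_comp_add hf k
  have h1 : ∀ f : ℤ → G, IsSeq F i f → IsSeq F (i + 1) (fun n => f (n + 1) * (f n)⁻¹) := by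
    intro f hf
    have e : (fun n => f (n + 1) * (f n)⁻¹) = f * dz f * f⁻¹ := by
      funext n
      simp [dz]
    rw [e]
    exact IsSeq.conj hF hf hf.diff
  have hnat : ∀ k : ℕ, IsSeq F (i + 1) (fun n => f (n + k) * (f n)⁻¹) := by
    intro k
    induction k with
    | zero =>
      have e : (fun n : ℤ => f (n + ((0 : ℕ) : ℤ)) * (f n)⁻¹) = fun _ => 1 := by
        funext n; simp
      rw [e]
      exact IsSeq.const (one_mem _)
    | succ k ih =>
      have e : (fun n : ℤ => f (n + ((k + 1 : ℕ) : ℤ)) * (f n)⁻¹) =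
          (fun n => f (n + 1 + k) * (f (n + k))⁻¹) * fun n => f (n + k) * (f n)⁻¹ := by
        funext n
        simp only [Pi.mul_apply]
        push_cast
        rw [show n + ((k : ℤ) + 1) = n + 1 + k by ring]
        group
      rw [e]
      exact (h1 (fun n => f (n + k)) (hs f i hf k)).mul hF ih
  rcases Int.eq_nat_or_neg k with ⟨j, rfl | rfl⟩
  · exact hnat j
  · have h2 := hs _ _ ((hnat j).inv hF) (-(j : ℤ))
    have e : (fun n : ℤ => f (n + -(j : ℤ)) * (f n)⁻¹) =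
        fun n => ((fun n => f (n + (j : ℤ)) * (f n)⁻¹)⁻¹ : ℤ → G) (n + -(j : ℤ)) := by
      funext n
      simp
    rw [e]
    exact h2

theorem sh_NN (hF : Filt F) {i : ℕ} {a : Equiv.Perm (ℤ → X)} (ha : a ∈ NN hF i) (k : ℤ) :
    (sh X) ^ k * a * ((sh X) ^ k)⁻¹ * a⁻¹ ∈ NN hF (i + 1) := by
  obtain ⟨f, hf, rfl⟩ := ha
  rw [sh_Phi, ← map_inv, ← map_mul]
  exact ⟨_, seq_shift hF hf k, rfl⟩

theorem sh_NN' (hF : Filt F) {i : ℕ} {a : Equiv.Perm (ℤ → X)} (ha : a ∈ NN hF i) (k : ℤ) :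
    (sh X) ^ k * a * ((sh X) ^ k)⁻¹ ∈ NN hF i := by
  have h := (NN hF i).mul_mem (NN_le hF (Nat.le_succ i) (sh_NN hF ha k)) ha
  rwa [inv_mul_cancel_right] at h

/-- the group of all `a * sh ^ k`, `a ∈ NN 2` -/
def EE (hF : Filt F) : Subgroup (Equiv.Perm (ℤ → X)) where
  carrier := {x | ∃ a ∈ NN hF 2, ∃ k : ℤ, x = a * (sh X) ^ k}
  mul_mem' := by
    rintro _ _ ⟨a, ha, k, rfl⟩ ⟨b, hb, l, rfl⟩
    refine ⟨a * ((sh X) ^ k * b * ((sh X) ^ k)⁻¹), (NN hF 2).mul_mem ha (sh_NN' hF hb k), k + l, ?_⟩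
    rw [zpow_add]
    group
  one_mem' := ⟨1, one_mem _, 0, by simp⟩
  inv_mem' := by
    rintro _ ⟨a, ha, k, rfl⟩
    refine ⟨(sh X) ^ (-k) * a⁻¹ * ((sh X) ^ (-k))⁻¹, sh_NN' hF ((NN hF 2).inv_mem ha) (-k), -k, ?_⟩
    group

theorem EE_comm (hF : Filt F) {i : ℕ} {a x : Equiv.Perm (ℤ → X)} (ha : a ∈ NN hF i)
    (hx : x ∈ EE hF) : a * x * a⁻¹ * x⁻¹ ∈ NN hF (i + 1) := by
  obtain ⟨b, hb, k, rfl⟩ := hx
  have h1 : a * b * a⁻¹ * b⁻¹ ∈ NN hF (i + 1) := NN_le hF (by omega) (NN_comm hF ha hb)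
  have h2 : (sh X) ^ k * a⁻¹ * ((sh X) ^ k)⁻¹ * (a⁻¹)⁻¹ ∈ NN hF (i + 1) :=
    sh_NN hF ((NN hF i).inv_mem ha) k
  have h3 := NN_conj hF ((NN hF 2).mul_mem hb (one_mem _)) (NN_conj hF ha h2)
  have e : a * (b * (sh X) ^ k) * a⁻¹ * (b * (sh X) ^ k)⁻¹ =
      (a * b * a⁻¹ * b⁻¹) * (b * 1 * (a * ((sh X) ^ k * a⁻¹ * ((sh X) ^ k)⁻¹ * (a⁻¹)⁻¹) * a⁻¹) *
        (b * 1)⁻¹) := by
    group
  rw [e]
  exact (NN hF (i + 1)).mul_mem h1 h3

theorem EE_EE (hF : Filt F) {x y : Equiv.Perm (ℤ → X)} (hx : x ∈ EE hF) (hy : y ∈ EE hF) :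
    x * y * x⁻¹ * y⁻¹ ∈ NN hF 3 := by
  obtain ⟨a, ha, k, rfl⟩ := hx
  have h1 : a * y * a⁻¹ * y⁻¹ ∈ NN hF 3 := EE_comm hF ha hy
  obtain ⟨b, hb, l, rfl⟩ := hy
  have h2 : (sh X) ^ k * b * ((sh X) ^ k)⁻¹ * b⁻¹ ∈ NN hF 3 := sh_NN hF hb k
  have h3 : a * ((sh X) ^ k * b * ((sh X) ^ k)⁻¹ * b⁻¹) * a⁻¹ ∈ NN hF 3 := NN_conj hF ha h2
  have e : a * (sh X) ^ k * (b * (sh X) ^ l) * (a * (sh X) ^ k)⁻¹ * (b * (sh X) ^ l)⁻¹ =
      (a * ((sh X) ^ k * b * ((sh X) ^ k)⁻¹ * b⁻¹) * a⁻¹) *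
        (a * (b * (sh X) ^ l) * a⁻¹ * (b * (sh X) ^ l)⁻¹) := by
    have h4 : (sh X) ^ k * (sh X) ^ l * ((sh X) ^ k)⁻¹ * ((sh X) ^ l)⁻¹ = 1 := by
      rw [← zpow_neg, ← zpow_neg, ← zpow_add, ← zpow_add, ← zpow_add]
      simp
    have h5 : (sh X) ^ k * (sh X) ^ l * ((sh X) ^ k)⁻¹ = (sh X) ^ l := by
      rw [mul_inv_eq_one] at h4
      exact h4
    calc a * (sh X) ^ k * (b * (sh X) ^ l) * (a * (sh X) ^ k)⁻¹ * (b * (sh X) ^ l)⁻¹
        = a * ((sh X) ^ k * b * ((sh X) ^ k)⁻¹) * ((sh X) ^ k * (sh X) ^ l * ((sh X) ^ k)⁻¹) *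
            a⁻¹ * (b * (sh X) ^ l)⁻¹ := by group
      _ = _ := by
          rw [h5]
          group
  rw [e]
  exact (NN hF 3).mul_mem h3 h1

theorem lcs_le (hF : Filt F) {K : Subgroup (Equiv.Perm (ℤ → X))} (hK : K ≤ EE hF) (n : ℕ) :
    K.lowerCentralSeries (n + 1) ≤ NN hF (n + 3) := by
  induction n with
  | zero =>
    rw [Subgroup.lowerCentralSeries_succ, Subgroup.lowerCentralSeries_zero,
      Subgroup.commutator_le]
    intro x hx y hy
    rw [commutatorElement_def]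
    exact EE_EE hF (hK hx) (hK hy)
  | succ n ih =>
    rw [Subgroup.lowerCentralSeries_succ, Subgroup.commutator_le]
    intro x hx y hy
    rw [commutatorElement_def]
    exact EE_comm hF (ih hx) (hK hy)

theorem NN_bot (hF : Filt F) {N : ℕ} (h : F N = ⊥) : NN hF N = ⊥ := by
  rw [eq_bot_iff]
  rintro _ ⟨f, hf, rfl⟩
  have h1 : f = 1 := by
    funext n
    have := IsSeq.val hf n
    rw [h, Subgroup.mem_bot] at this
    exact this
  rw [h1, map_one]
  exact one_mem _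

/-- products of powers are polynomial of level one -/
theorem isSeq_one {H : Type*} [Group H] {F : ℕ → Subgroup H} (hF : Filt F) {p : ℕ}
    (hp : F (1 + p) = ⊤) {d : ℕ} :
    ∀ (T : Fin d → H) (P : Fin d → Polynomial ℤ), (∀ i, (P i).natDegree ≤ p) →
      IsSeq F 1 (pseq T P) := by
  induction d with
  | zero =>
    intro T P _
    have e : pseq T P = fun _ => 1 := by
      funext n
      simp [pseq]
    rw [e]
    exact IsSeq.const (one_mem _)
  | succ d ih =>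
    intro T P hP
    have e : pseq T P = (fun n => T 0 ^ (P 0).eval n) *
        pseq (fun i => T i.succ) (fun i => P i.succ) := by
      funext n
      simp only [pseq, List.ofFn_succ, List.prod_cons, Pi.mul_apply]
    rw [e]
    refine IsSeq.mul hF ?_ (ih _ _ fun i => hP i.succ)
    rw [isSeq_iff]
    exact isPol_zpow hF (i := 1) (d := p) (by rw [hp]; exact Subgroup.mem_top _)
      (eval_mem_WP (P 0) (hP 0))

end nil

/-- the group generated by `T_0, …, T_m` is nilpotent -/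
theorem hat_nil {X : Type*} (G : Subgroup (Equiv.Perm X)) [Group.IsNilpotent G] {d m : ℕ}
    (T : Fin d → G) (P : Fin d → Fin m → Polynomial ℤ)
    (g : Fin m → ℤ → Equiv.Perm X)
    (hg : ∀ j n, g j n = ((pseq T (fun i => P i j) n : G) : Equiv.Perm X)) :
    ∃ k : ℕ, 1 ≤ k ∧ (Subgroup.closure (Set.range (hat g))).lowerCentralSeries k = ⊥ := by
  set p := Finset.univ.sup fun q : Fin d × Fin m => (P q.1 q.2).natDegree with hp
  have hPp : ∀ i j, (P i j).natDegree ≤ p := fun i j =>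
    Finset.le_sup (f := fun q : Fin d × Fin m => (P q.1 q.2).natDegree) (Finset.mem_univ (i, j))
  have hF := NilSeq.filt_lcF (G := G) (1 + p)
  have hK : Subgroup.closure (Set.range (hat g)) ≤ EE hF := by
    rw [Subgroup.closure_le]
    rintro _ ⟨i, rfl⟩
    induction i using Fin.lastCases with
    | last =>
      rw [hat_last]
      exact ⟨1, one_mem _, 1, by simp⟩
    | cast j =>
      have hs : IsSeq (Pool.Lib.PolySeq.lcF G (1 + p)) 1 (pseq T fun i => P i j) :=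
        isSeq_one hF (NilSeq.lcF_self (1 + p)) T (fun i => P i j) fun i => hPp i j
      refine ⟨Phi G (dz (pseq T fun i => P i j)), ⟨_, hs.diff, rfl⟩, 1, ?_⟩
      have h1 := hat_mul g j 1
      rw [hat_last, zpow_one, zpow_neg_one, mul_inv_eq_iff_eq_mul] at h1
      rw [h1, zpow_one, Phi_apply]
      congr 2
      funext n
      rw [hg, hg]
      rfl
  refine ⟨(1 + p + 1) * 2 ^ Group.nilpotencyClass G + 1, by omega, ?_⟩
  rw [eq_bot_iff]
  refine (lcs_le hF hK _).trans ?_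
  rw [← NN_bot hF (NilSeq.lcF_bot (G := G) (1 + p))]
  exact NN_le hF (by omega)

end Pool.CoI
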