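import Pool.Agent.CoI.Meas
import Pool.Agent.PinskerA.MaxNilp

set_option autoImplicit false
set_option warn.classDefReducibility false

/-!
# CoI: reduction of the nilpotent polynomial problem to linear exponents
-/

open MeasureTheory Filter Topology
open scoped ENNReal

namespace Pool.CoI

open Pool.PinskerA Pool.Pinsker

/-- convergence for `g_j(n) = T_j ^ n * T_m ^ (-n)`, `j < m`, for all systems of class at most
`k` -/
def ConvLin (k m : ℕ) : Prop :=
  ∀ (X : Type) [MeasurableSpace X] (μ : Measure X) [IsProbabilityMeasure μ]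
    (T : Fin (m + 1) → Equiv.Perm X), (∀ i, Measurable ⇑(T i).symm) →
    (∀ i, MeasurePreserving (⇑(T i)) μ μ) →
    (Subgroup.closure (Set.range T)).lowerCentralSeries k = ⊥ →
    ∀ f : Fin m → X → ℂ, (∀ j, MemLp (f j) ∞ μ) →
    ∀ᵐ x ∂μ, ∃ L : ℂ, Tendsto (fun N : ℕ => (2 * (N : ℂ) + 1)⁻¹ *
      ∑ n ∈ Finset.Icc (-(N : ℤ)) N,
        ∏ j : Fin m, f j ((T j.castSucc ^ n * T (Fin.last m) ^ (-n)) x)) atTop (𝓝 L)

/-- the same for the free actions of zero entropy of the free nilpotent group of class `k` -/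
def ConvLinZeroFree (k m : ℕ) : Prop :=
  ∀ (X : Type) [MeasurableSpace X] (μ : Measure X) [IsProbabilityMeasure μ]
    (T : Fin (m + 1) → Equiv.Perm X), (∀ i, Measurable ⇑(T i).symm) →
    (∀ i, MeasurePreserving (⇑(T i)) μ μ) →
    (Subgroup.closure (Set.range T)).lowerCentralSeries k = ⊥ →
    (∀ w : FreeGroup (Fin (m + 1)),
      w ∉ (⊤ : Subgroup (FreeGroup (Fin (m + 1)))).lowerCentralSeries k →
      ∃ (n : ℕ) (c : X → Fin n), Measurable c ∧ ∀ x, c (FreeGroup.lift T w x) ≠ c x) →
    (∀ B : Set X, MeasurableSet B → ZeroEntropyG μ (Subgroup.closure (Set.range T)) B) →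
    ∀ f : Fin m → X → ℂ, (∀ j, MemLp (f j) ∞ μ) →
    ∀ᵐ x ∂μ, ∃ L : ℂ, Tendsto (fun N : ℕ => (2 * (N : ℂ) + 1)⁻¹ *
      ∑ n ∈ Finset.Icc (-(N : ℤ)) N,
        ∏ j : Fin m, f j ((T j.castSucc ^ n * T (Fin.last m) ^ (-n)) x)) atTop (𝓝 L)

/-- the exponents of `T_j ^ n * T_m ^ (-n)` -/
noncomputable def linP (m : ℕ) (i : Fin (m + 1)) (j : Fin m) : Polynomial ℤ :=
  Fin.lastCases (motive := fun _ => Polynomial ℤ) (-Polynomial.X)
    (fun i => if i = j then Polynomial.X else 0) i

theorem prod_single {G : Type*} [Group G] {m : ℕ} : ∀ (f : Fin m → G) (j : Fin m),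
    (∀ i, i ≠ j → f i = 1) → (List.ofFn f).prod = f j := by
  induction m with
  | zero => intro f j; exact j.elim0
  | succ m ih =>
    intro f j h
    rw [List.ofFn_succ, List.prod_cons]
    rcases Fin.eq_zero_or_eq_succ j with rfl | ⟨i, rfl⟩
    · have h1 : (List.ofFn fun i : Fin m => f i.succ).prod = 1 := by
        apply List.prod_eq_one
        intro x hx
        obtain ⟨i, rfl⟩ := (List.mem_ofFn' _ x).1 hx
        exact h _ (Fin.succ_ne_zero i)
      rw [h1, mul_one]
    · rw [h 0 (Fin.succ_ne_zero i).symm, one_mul]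
      exact ih (fun i => f i.succ) i fun l hl => h _ fun e => hl (Fin.succ_injective _ e)

theorem prod_lin {G : Type*} [Group G] {m : ℕ} (T : Fin (m + 1) → G) (j : Fin m) (n : ℤ) :
    (List.ofFn fun i => T i ^ (linP m i j).eval n).prod =
      T j.castSucc ^ n * T (Fin.last m) ^ (-n) := by
  rw [List.ofFn_succ', List.concat_eq_append, List.prod_append, List.prod_singleton]
  congr 1
  · rw [prod_single _ j]
    · simp [linP]
    · intro i hi
      simp [linP, hi]
  · simp [linP]

theorem linP_zero (m : ℕ) (i : Fin (m + 1)) (j : Fin m) : (linP m i j).eval 0 = 0 := by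
  induction i using Fin.lastCases with
  | last => simp [linP]
  | cast i =>
    simp only [linP, Fin.lastCases_castSucc]
    split_ifs <;> simp

/-- from free actions of zero entropy to all actions -/
theorem convLin_of_zeroFree {k m : ℕ} (hk : 1 ≤ k) (h : ConvLinZeroFree k m) : ConvLin k m := by
  have h1 : ConvNilZeroFree k (m + 1) m (linP m) := by
    intro X _ μ _ T hT' hT hnil hfree hze f hf
    have := h X μ T hT' hT hnil hfree hze f hf
    simp only [prod_lin]
    exact this
  have h2 := reduce_nil k (m + 1) m hk (linP m) (linP_zero m) (maxNil k (m + 1)) h1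
  intro X _ μ _ T hT' hT hnil f hf
  have := h2 X μ T hT' hT hnil f hf
  simp only [prod_lin] at this
  exact this

/-- the linear case for all classes gives all nilpotent groups and polynomials -/
theorem convNil_of_convLin {m : ℕ} (h : ∀ k, 1 ≤ k → ConvLin k m) (k d : ℕ)
    (P : Fin d → Fin m → Polynomial ℤ) (hP0 : ∀ i j, (P i j).eval 0 = 0) : ConvNil k d m P := by
  intro X _ μ _ T hT' hT hnil f hf
  set G := Subgroup.closure (Set.range T) with hG
  have hGn : Group.IsNilpotent G := Subgroup.isNilpotent_of_lowerCentralSeries_eq_bot hnil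
  set T' : Fin d → G := fun i => ⟨T i, Subgroup.subset_closure (Set.mem_range_self i)⟩ with hT'd
  set g : Fin m → ℤ → Equiv.Perm X := fun j n => ((Pool.Nil.pseq T' (fun i => P i j) n : G) :
    Equiv.Perm X) with hg
  have hgv : ∀ j n, g j n = (List.ofFn fun i => T i ^ (P i j).eval n).prod := by
    intro j n
    simp only [hg, Pool.Nil.pseq, Subgroup.val_list_prod, List.map_ofFn]
    rfl
  have hg0 : ∀ j, g j 0 = 1 := by
    intro j
    simp only [hg]
    rw [Pool.Nil.NilSeq.pseq_zero T' (fun i => P i j) fun i => hP0 i j]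
    rfl
  have hsymm : ∀ i, MeasurePreserving (⇑(T i).symm) μ μ := by
    intro i
    exact MeasurePreserving.symm ⟨T i, (hT i).measurable, hT' i⟩ (hT i)
  have horb : ∀ j n, MeasurePreserving (g j n) μ μ ∧ MeasurePreserving (g j n).symm μ μ := by
    intro j n
    rw [hgv]
    exact Pool.Nil.orb_mem T hT hsymm (fun i => P i j) n
  obtain ⟨k', hk', hlcs⟩ := hat_nil G T' P g fun j n => rfl
  -- measurable versions
  have hmk : ∀ j, ∃ f' : X → ℂ, Measurable f' ∧ f j =ᵐ[μ] f' := fun j =>
    ⟨(hf j).1.mk (f j), (hf j).1.stronglyMeasurable_mk.measurable, (hf j).1.ae_eq_mk⟩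
  choose f' hf'm hff' using hmk
  have hf' : ∀ j, MemLp (f' j) ∞ μ := fun j => (memLp_congr_ae (hff' j)).1 (hf j)
  set ν : Measure (ℤ → X) := Measure.infinitePi fun _ : ℤ => μ with hν
  have hev : MeasurePreserving (fun x : ℤ → X => x 0) ν μ :=
    measurePreserving_eval_infinitePi (fun _ : ℤ => μ) 0
  have hhat := fun i => hat_mp (m := m) (g := g) (fun j n => (horb j n).1)
    (fun j n => (horb j n).2.measurable) i
  have hc := h k' hk' (ℤ → X) ν (hat g) (fun i => (hhat i).1) (fun i => (hhat i).2) hlcs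
    (fun j x => f' j (x 0)) fun j => (hf' j).comp_measurePreserving hev
  simp only [hat_zero _ _ (hg0 _)] at hc
  set A : ℕ → X → ℂ := fun N x => (2 * (N : ℂ) + 1)⁻¹ * ∑ n ∈ Finset.Icc (-(N : ℤ)) N,
    ∏ j, f' j (g j n x) with hA
  have hAm : ∀ N, Measurable (A N) := by
    intro N
    refine Measurable.const_mul (Finset.measurable_sum _ fun n _ =>
      Finset.measurable_prod _ fun j _ => (hf'm j).comp (horb j n).1.measurable) _
  have hset : MeasurableSet {x | ∃ L : ℂ, Tendsto (fun N => A N x) atTop (𝓝 L)} :=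
    measurableSet_exists_tendsto hAm
  have h1 : ∀ᵐ x ∂μ, ∃ L : ℂ, Tendsto (fun N => A N x) atTop (𝓝 L) := by
    rw [← hev.map_eq, ae_map_iff hev.measurable.aemeasurable hset]
    exact hc
  have h2 : ∀ᵐ x ∂μ, ∀ j n, f j (g j n x) = f' j (g j n x) := by
    rw [ae_all_iff]
    intro j
    rw [ae_all_iff]
    intro n
    exact (horb j n).1.quasiMeasurePreserving.ae_eq_comp (hff' j)
  filter_upwards [h1, h2] with x hx hx2
  obtain ⟨L, hL⟩ := hx
  refine ⟨L, ?_⟩
  refine hL.congr fun N => ?_
  simp only [hA]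
  congr 1
  refine Finset.sum_congr rfl fun n _ => Finset.prod_congr rfl fun j _ => ?_
  rw [← hgv, hx2]

end Pool.CoI
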