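import Pool.Agent.CoI.Alg

set_option autoImplicit false

/-!
# CoI: the product measure on `ℤ → X`
-/

namespace Pool.CoI

open MeasureTheory Measure

variable {X : Type*} [MeasurableSpace X]

theorem measurable_sh : Measurable (sh X) :=
  measurable_pi_iff.2 fun i => measurable_pi_apply (i + 1)

theorem measurable_sh_symm : Measurable (sh X).symm :=
  measurable_pi_iff.2 fun i => measurable_pi_apply (i - 1)

theorem measurable_co {p : ℤ → Equiv.Perm X} (hp : ∀ i, Measurable (p i)) : Measurable (co p) :=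
  measurable_pi_iff.2 fun i => (hp i).comp (measurable_pi_apply i)

variable {μ : Measure X} [IsProbabilityMeasure μ]

theorem mp_sh : MeasurePreserving (sh X) (infinitePi fun _ : ℤ => μ) (infinitePi fun _ : ℤ => μ) := by
  refine ⟨measurable_sh, ?_⟩
  have h := infinitePi_map_piCongrLeft (X := fun _ : ℤ => X) (μ := fun _ : ℤ => μ)
    (Equiv.subRight (1 : ℤ))
  have e : ⇑(sh X) = ⇑(MeasurableEquiv.piCongrLeft (fun _ : ℤ => X) (Equiv.subRight (1 : ℤ))) := by
    funext x i
    rw [sh_apply, MeasurableEquiv.coe_piCongrLeft]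
    have h1 := Equiv.piCongrLeft_apply_apply (P := fun _ : ℤ => X) (Equiv.subRight (1 : ℤ)) x (i + 1)
    rw [Equiv.subRight_apply, add_sub_cancel_right] at h1
    exact h1.symm
  rw [e]
  exact h

theorem mp_co {p : ℤ → Equiv.Perm X} (hp : ∀ i, MeasurePreserving (p i) μ μ) :
    MeasurePreserving (co p) (infinitePi fun _ : ℤ => μ) (infinitePi fun _ : ℤ => μ) := by
  refine ⟨measurable_co fun i => (hp i).measurable, ?_⟩
  have h := infinitePi_map_pi (μ := fun _ : ℤ => μ) (f := fun i => ⇑(p i))
    fun i => (hp i).measurable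
  have e : ⇑(co p) = fun x i => p i (x i) := rfl
  rw [e, h]
  congr 1
  funext i
  exact (hp i).map_eq

/-- measurable with measurable inverse, measure preserving -/
theorem hat_mp {m : ℕ} {g : Fin m → ℤ → Equiv.Perm X}
    (hg : ∀ j n, MeasurePreserving (g j n) μ μ) (hg' : ∀ j n, Measurable (g j n).symm)
    (i : Fin (m + 1)) :
    Measurable (hat g i).symm ∧
      MeasurePreserving (hat g i) (infinitePi fun _ : ℤ => μ) (infinitePi fun _ : ℤ => μ) := by
  induction i using Fin.lastCases with
  | last => rw [hat_last]; exact ⟨measurable_sh_symm, mp_sh⟩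
  | cast j =>
    rw [hat_castSucc]
    have h1 : ∀ n, MeasurePreserving ((g j n)⁻¹ : Equiv.Perm X) μ μ := by
      intro n
      have hm : Measurable ((g j n)⁻¹ : Equiv.Perm X) := hg' j n
      refine ⟨hm, ?_⟩
      have h2 := (hg j n).map_eq
      conv_lhs => rw [← h2]
      rw [Measure.map_map hm (hg j n).measurable]
      have e : ((g j n)⁻¹ : Equiv.Perm X) ∘ (g j n) = id := by funext x; simp
      show Measure.map (⇑((g j n)⁻¹ : Equiv.Perm X) ∘ ⇑(g j n)) μ = μ
      rw [e, Measure.map_id]
    have h3 := mp_co h1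
    have e1 : (co (g j))⁻¹ = co fun n => (g j n)⁻¹ := (map_inv co (g j)).symm
    refine ⟨?_, ?_⟩
    · have e : ((co (g j))⁻¹ * sh X * co (g j)).symm = (co (g j))⁻¹ * (sh X)⁻¹ * co (g j) := by
        show ((co (g j))⁻¹ * sh X * co (g j))⁻¹ = _
        group
      rw [e, Equiv.Perm.coe_mul, Equiv.Perm.coe_mul, e1]
      exact (h3.measurable.comp measurable_sh_symm).comp
        (measurable_co fun n => (hg j n).measurable)
    · rw [Equiv.Perm.coe_mul, Equiv.Perm.coe_mul, e1]
      exact (h3.comp mp_sh).comp (mp_co fun n => hg j n)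

end Pool.CoI
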